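import Mathlib

/-!
# Spaces with a base of subinfinite rank are metacompact

We show that every `T1` space with a base of subinfinite rank is (hereditarily) metacompact,
and that without the `T1` axiom even a base which is a chain does not help.
-/

set_option autoImplicit false

open Set Topology TopologicalSpace

namespace Pool.Agent.Results.MP_03f7b8_gt.SubinfiniteRank

universe u

/-- A family of subsets of `X` has subinfinite rank if each of its subfamilies which is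
incomparable (no member is contained in a different member) and has a common point is finite. -/
def HasSubinfiniteRank {X : Type u} (G : Set (Set X)) : Prop :=
  ∀ D : Set (Set X), D ⊆ G → (∀ A ∈ D, ∀ B ∈ D, A ≠ B → ¬ A ⊆ B) → (⋂₀ D).Nonempty → D.Finite

/-- Every open cover has a point-finite open refinement. -/
def IsMetacompact (X : Type u) [TopologicalSpace X] : Prop :=
  ∀ U : Set (Set X), (∀ A ∈ U, IsOpen A) → ⋃₀ U = univ →
    ∃ V : Set (Set X), (∀ A ∈ V, IsOpen A) ∧ ⋃₀ V = univ ∧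
      (∀ A ∈ V, ∃ B ∈ U, A ⊆ B) ∧ ∀ x : X, {A ∈ V | x ∈ A}.Finite

section Combinatorics

variable {X : Type u}

/-- no infinite incomparable sequence with a common point -/
lemma no_seq {G : Set (Set X)} (hG : HasSubinfiniteRank G) (f : ℕ → Set X) (hf : ∀ n, f n ∈ G)
    (p : X) (hp : ∀ n, p ∈ f n) (h : ∀ m n, m < n → ¬ f m ⊆ f n ∧ ¬ f n ⊆ f m) : False := by
  have hinj : Function.Injective f := by
    intro m n hmn
    rcases lt_trichotomy m n with h1 | h1 | h1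
    · exact absurd hmn.subset (h m n h1).1
    · exact h1
    · exact absurd hmn.subset (h n m h1).2
  refine Set.infinite_range_of_injective hinj (hG (range f) ?_ ?_ ⟨p, ?_⟩)
  · rintro _ ⟨n, rfl⟩
    exact hf n
  · rintro _ ⟨m, rfl⟩ _ ⟨n, rfl⟩ hne
    rcases lt_trichotomy m n with h1 | h1 | h1
    · exact (h m n h1).1
    · exact absurd (congrArg f h1) hne
    · exact (h n m h1).2
  · rintro _ ⟨n, rfl⟩
    exact hp n

/-- `g` is good in `F` if the members of `F` above `g` are directed upwards -/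
def Good (F : Set (Set X)) (g : Set X) : Prop :=
  g ∈ F ∧ ∀ h₁ ∈ F, ∀ h₂ ∈ F, g ⊆ h₁ → g ⊆ h₂ → ∃ h₃ ∈ F, h₁ ⊆ h₃ ∧ h₂ ⊆ h₃

/-- the ideal of all members of `F` compatible with `g` -/
def Idl (F : Set (Set X)) (g : Set X) : Set (Set X) := {A ∈ F | ∃ h ∈ F, A ⊆ h ∧ g ⊆ h}

/-- the maximal ideals of `F` -/
def Comp (F : Set (Set X)) : Set (Set (Set X)) := {E | ∃ g, Good F g ∧ E = Idl F g}

lemma exists_good {G F : Set (Set X)} (hG : HasSubinfiniteRank G) (hF : F ⊆ G) {A : Set X}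
    (hA : A ∈ F) {p : X} (hp : p ∈ A) : ∃ g, Good F g ∧ A ⊆ g := by
  by_contra hcon
  push Not at hcon
  have key : ∀ c : {c : Set X // c ∈ F ∧ A ⊆ c}, ∃ l : Set X, ∃ c' : {c : Set X // c ∈ F ∧ A ⊆ c},
      l ∈ F ∧ c.1 ⊆ l ∧ c.1 ⊆ c'.1 ∧ ¬ ∃ h ∈ F, l ⊆ h ∧ c'.1 ⊆ h := by
    rintro ⟨c, hcF, hAc⟩
    have h1 : ¬ Good F c := fun hg => hcon c hg hAc
    unfold Good at h1
    push Not at h1
    obtain ⟨l, hl, c', hc', hcl, hcc', hno⟩ := h1 hcF
    refine ⟨l, ⟨c', hc', hAc.trans hcc'⟩, hl, hcl, hcc', ?_⟩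
    rintro ⟨h, hh, hlh, hch⟩
    exact hno h hh hlh hch
  choose L C hL1 hL2 hL3 hL4 using key
  let s : ℕ → {c : Set X // c ∈ F ∧ A ⊆ c} := fun n => Nat.rec ⟨A, hA, subset_rfl⟩ (fun _ c => C c) n
  have hs : ∀ n, s (n + 1) = C (s n) := fun n => rfl
  have hmono : ∀ m n, m ≤ n → (s m).1 ⊆ (s n).1 := by
    intro m n hmn
    induction n, hmn using Nat.le_induction with
    | base => exact subset_rfl
    | succ n hmn ih => exact ih.trans (by rw [hs]; exact hL3 _)
  refine no_seq hG (fun n => L (s n)) (fun n => hF (hL1 _)) p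
    (fun n => hL2 _ ((s n).2.2 hp)) ?_
  intro m n hmn
  have h1 : (C (s m)).1 ⊆ L (s n) := by
    rw [← hs]
    exact (hmono _ _ hmn).trans (hL2 _)
  constructor
  · intro hsub
    exact hL4 (s m) ⟨L (s n), hL1 _, hsub, h1⟩
  · intro hsub
    exact hL4 (s m) ⟨L (s m), hL1 _, subset_rfl, h1.trans hsub⟩

lemma comp_subset {F : Set (Set X)} {E : Set (Set X)} (hE : E ∈ Comp F) : E ⊆ F := by
  obtain ⟨g, _, rfl⟩ := hE
  exact fun A hA => hA.1

lemma comp_nonempty {F : Set (Set X)} {E : Set (Set X)} (hE : E ∈ Comp F) : E.Nonempty := by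
  obtain ⟨g, hg, rfl⟩ := hE
  exact ⟨g, hg.1, g, hg.1, subset_rfl, subset_rfl⟩

lemma comp_directed {F : Set (Set X)} {E : Set (Set X)} (hE : E ∈ Comp F) :
    DirectedOn (· ⊆ ·) E := by
  obtain ⟨g, hg, rfl⟩ := hE
  rintro A ⟨hA, h₁, hh₁, hAh₁, hgh₁⟩ B ⟨hB, h₂, hh₂, hBh₂, hgh₂⟩
  obtain ⟨h₃, hh₃, h13, h23⟩ := hg.2 h₁ hh₁ h₂ hh₂ hgh₁ hgh₂
  exact ⟨h₃, ⟨hh₃, h₃, hh₃, subset_rfl, hgh₁.trans h13⟩, hAh₁.trans h13, hBh₂.trans h23⟩

lemma comp_finite {G F : Set (Set X)} (hG : HasSubinfiniteRank G) (hF : F ⊆ G) (p : X) :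
    {E ∈ Comp F | p ∈ ⋃₀ E}.Finite := by
  by_contra hinf
  have hinf : {E ∈ Comp F | p ∈ ⋃₀ E}.Infinite := hinf
  let e := hinf.natEmbedding
  have key : ∀ n, ∃ g h : Set X, Good F g ∧ (e n : Set (Set X)) = Idl F g ∧ h ∈ F ∧ p ∈ h ∧ g ⊆ h := by
    intro n
    obtain ⟨⟨g, hg, hE⟩, hp⟩ := (e n).2
    obtain ⟨A, hA, hpA⟩ := hp
    rw [hE] at hA
    obtain ⟨_, h, hh, hAh, hgh⟩ := hA
    exact ⟨g, h, hg, hE, hh, hAh hpA, hgh⟩
  choose g h hg hE hh hph hgh using key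
  have hne : ∀ m n, m ≠ n → ¬ h m ⊆ h n := by
    intro m n hmn hsub
    apply hmn
    apply e.injective
    apply Subtype.ext
    rw [hE m, hE n]
    ext A
    constructor
    · rintro ⟨hA, k, hk, hAk, hgk⟩
      obtain ⟨k', hk', h1, h2⟩ := (hg m).2 k hk (h n) (hh n) hgk ((hgh m).trans hsub)
      exact ⟨hA, k', hk', hAk.trans h1, (hgh n).trans h2⟩
    · rintro ⟨hA, k, hk, hAk, hgk⟩
      obtain ⟨k', hk', h1, h2⟩ := (hg n).2 k hk (h n) (hh n) hgk (hgh n)
      exact ⟨hA, k', hk', hAk.trans h1, ((hgh m).trans hsub).trans h2⟩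
  exact no_seq hG h (fun n => hF (hh n)) p hph fun m n hmn => ⟨hne m n hmn.ne, hne n m hmn.ne'⟩

variable (G U : Set (Set X)) (b : Set (Set X) → X)

/-- members of the base inside a member of `E` and missing the point `b E` -/
def Fam (E : Set (Set X)) : Set (Set X) := {A ∈ G | b E ∉ A ∧ ∃ A' ∈ E, A ⊆ A'}

/-- bounded ideals -/
def Bd (E : Set (Set X)) : Prop := ∃ A ∈ U, ⋃₀ E ⊆ A

/-- the levels of the tree of ideals -/
def Lev : ℕ → Set (Set (Set X))
  | 0 => Comp {A ∈ G | ∃ B ∈ U, A ⊆ B}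
  | (n + 1) => {E' | ∃ E ∈ Lev n, ¬ Bd U E ∧ E' ∈ Comp (Fam G b E)}

/-- what we know about each node of the tree -/
structure Node (E : Set (Set X)) : Prop where
  sub : E ⊆ G
  ne : E.Nonempty
  dir : DirectedOn (· ⊆ ·) E
  ref : ∀ A ∈ E, ∃ B ∈ U, A ⊆ B

variable {G U b}

lemma node_child {E E' : Set (Set X)} (hE : Node G U E) (hE' : E' ∈ Comp (Fam G b E)) :
    Node G U E' where
  sub := fun _ hA => (comp_subset hE' hA).1
  ne := comp_nonempty hE'
  dir := comp_directed hE'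
  ref := by
    intro A hA
    obtain ⟨_, _, A', hA', hAA'⟩ := comp_subset hE' hA
    obtain ⟨B, hB, hA'B⟩ := hE.ref A' hA'
    exact ⟨B, hB, hAA'.trans hA'B⟩

lemma node_lev : ∀ (n : ℕ) (E : Set (Set X)), E ∈ Lev G U b n → Node G U E := by
  intro n
  induction n with
  | zero =>
    intro E hE
    exact ⟨fun A hA => (comp_subset hE hA).1, comp_nonempty hE, comp_directed hE,
      fun A hA => (comp_subset hE hA).2⟩
  | succ n ih =>
    rintro E' ⟨E, hE, _, hE'⟩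
    exact node_child (ih E hE) hE'

lemma sUnion_child {E E' : Set (Set X)} (hE' : E' ∈ Comp (Fam G b E)) : ⋃₀ E' ⊆ ⋃₀ E := by
  rintro x ⟨A, hA, hx⟩
  obtain ⟨_, _, A', hA', hAA'⟩ := comp_subset hE' hA
  exact ⟨A', hA', hAA' hx⟩

/-- there is no infinite branch of unbounded ideals at a point -/
lemma no_branch (hG : HasSubinfiniteRank G) (p : X) (E : ℕ → Set (Set X))
    (hb : ∀ n, b (E n) ∈ ⋃₀ (E n)) (hN : ∀ n, Node G U (E n)) (hU : ∀ n, ¬ Bd U (E n))
    (hp : ∀ n, p ∈ ⋃₀ (E n)) (hC : ∀ n, E (n + 1) ∈ Comp (Fam G b (E n))) : False := by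
  have hav : ∀ j k, j < k → ∀ A ∈ E k, b (E j) ∉ A := by
    intro j k hjk
    induction k, hjk using Nat.le_induction with
    | base =>
      intro A hA
      exact (comp_subset (hC j) hA).2.1
    | succ k _ ih =>
      intro A hA hbA
      obtain ⟨_, _, A', hA', hAA'⟩ := comp_subset (hC k) hA
      exact ih A' hA' (hAA' hbA)
  obtain ⟨f, hf1, hf2⟩ := exists_seq_of_forall_finset_exists
    (fun q : ℕ × Set X => q.2 ∈ E q.1 ∧ p ∈ q.2 ∧ b (E q.1) ∈ q.2)
    (fun q q' => q.1 < q'.1 ∧ ¬ q.2 ⊆ q'.2 ∧ ¬ q'.2 ⊆ q.2) (by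
      intro s hs
      obtain ⟨K, hK⟩ : ∃ K, ∀ q ∈ s, q.1 < K :=
        ⟨s.sup Prod.fst + 1, fun q hq => Nat.lt_succ_of_le (Finset.le_sup (f := Prod.fst) hq)⟩
      have hz : ∀ q ∈ s, ∃ z ∈ ⋃₀ (E K), z ∉ q.2 := by
        intro q hq
        obtain ⟨B, hB, hqB⟩ := (hN q.1).ref q.2 (hs q hq).1
        by_contra hcon
        push Not at hcon
        exact hU K ⟨B, hB, fun z hz => hqB (hcon z hz)⟩
      have : Nonempty X := ⟨p⟩
      choose! z hz1 hz2 using hz
      obtain ⟨A, hA, hsA⟩ := DirectedOn.exists_mem_subset_of_finite_of_subset_sUnion (hN K).ne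
        (hN K).dir (s := insert p (insert (b (E K)) (z '' (s : Set (ℕ × Set X)))))
        (((s.finite_toSet.image z).insert _).insert _) (by
          intro x hx
          rcases hx with rfl | rfl | ⟨q, hq, rfl⟩
          · exact hp K
          · exact hb K
          · exact hz1 q hq)
      refine ⟨(K, A), ⟨hA, hsA (by simp), hsA (by simp)⟩, ?_⟩
      intro q hq
      refine ⟨hK q hq, ?_, ?_⟩
      · intro hqA
        exact hav q.1 K (hK q hq) A hA (hqA (hs q hq).2.2)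
      · intro hAq
        exact hz2 q hq (hAq (hsA (by
          right; right
          exact ⟨q, hq, rfl⟩))))
  exact no_seq hG (fun n => (f n).2) (fun n => (hN _).sub (hf1 n).1) p (fun n => (hf1 n).2.1)
    fun m n hmn => (hf2 m n hmn).2

variable (G U b) in
/-- there are branches of length `n` at the point `p` starting at `E` -/
def Br (p : X) : ℕ → Set (Set X) → Prop
  | 0, E => p ∈ ⋃₀ E
  | (n + 1), E => p ∈ ⋃₀ E ∧ ¬ Bd U E ∧ ∃ E' ∈ Comp (Fam G b E), Br p n E'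

lemma br_mem {p : X} : ∀ (n : ℕ) (E : Set (Set X)), Br G U b p n E → p ∈ ⋃₀ E := by
  intro n
  cases n with
  | zero => exact fun E h => h
  | succ n => exact fun E h => h.1

lemma br_anti {p : X} : ∀ (n : ℕ) (E : Set (Set X)), Br G U b p (n + 1) E → Br G U b p n E := by
  intro n
  induction n with
  | zero => exact fun E h => h.1
  | succ n ih =>
    rintro E ⟨h1, h2, E', hE', h3⟩
    exact ⟨h1, h2, E', hE', ih E' h3⟩

lemma br_anti' {p : X} {m n : ℕ} (hmn : m ≤ n) (E : Set (Set X)) (h : Br G U b p n E) :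
    Br G U b p m E := by
  induction n, hmn using Nat.le_induction with
  | base => exact h
  | succ n _ ih => exact ih (br_anti n E h)

lemma finite_bound {p : X} {S : Set (Set (Set X))} (hS : {E ∈ S | p ∈ ⋃₀ E}.Finite)
    (h : ∀ E ∈ S, ∃ n, ¬ Br G U b p n E) : ∃ N, ∀ E ∈ S, ¬ Br G U b p N E := by
  classical
  choose! n hn using h
  refine ⟨hS.toFinset.sup n, fun E hE hbr => ?_⟩
  have hp := br_mem _ _ hbr
  refine hn E hE (br_anti' ?_ E hbr)
  exact Finset.le_sup (f := n) (by simp only [Set.Finite.mem_toFinset]; exact ⟨hE, hp⟩)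

lemma br_step (hG : HasSubinfiniteRank G) {p : X} {E : Set (Set X)}
    (h : ∀ n, Br G U b p n E) : ¬ Bd U E ∧ ∃ E' ∈ Comp (Fam G b E), ∀ n, Br G U b p n E' := by
  refine ⟨(h 1).2.1, ?_⟩
  by_contra hcon
  push Not at hcon
  obtain ⟨N, hN⟩ := finite_bound (comp_finite hG (F := Fam G b E) (fun A hA => hA.1) p) hcon
  obtain ⟨_, _, E', hE', hbr⟩ := h (N + 1)
  exact hN E' hE' hbr

lemma not_forall_br (hG : HasSubinfiniteRank G)
    (hb : ∀ E, Node G U E → ¬ Bd U E → b E ∈ ⋃₀ E) {p : X} {E : Set (Set X)}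
    (hE : Node G U E) : ∃ n, ¬ Br G U b p n E := by
  by_contra hcon
  push Not at hcon
  have key : ∀ c : {E : Set (Set X) // Node G U E ∧ ∀ n, Br G U b p n E},
      ∃ c' : {E : Set (Set X) // Node G U E ∧ ∀ n, Br G U b p n E},
        c'.1 ∈ Comp (Fam G b c.1) := by
    rintro ⟨c, hc, hbr⟩
    obtain ⟨_, E', hE', hbr'⟩ := br_step hG hbr
    exact ⟨⟨E', node_child hc hE', hbr'⟩, hE'⟩
  choose C hC using key
  let s : ℕ → {E : Set (Set X) // Node G U E ∧ ∀ n, Br G U b p n E} :=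
    fun n => Nat.rec ⟨E, hE, hcon⟩ (fun _ c => C c) n
  have hUb : ∀ n, ¬ Bd U (s n).1 := fun n => (br_step hG (s n).2.2).1
  exact no_branch hG p (fun n => (s n).1) (fun n => hb _ (s n).2.1 (hUb n)) (fun n => (s n).2.1)
    hUb (fun n => br_mem 0 _ ((s n).2.2 0)) (fun n => hC (s n))

lemma br_of_lev {p : X} : ∀ (n m : ℕ) (E : Set (Set X)), E ∈ Lev G U b n → Br G U b p m E →
    ∃ E₀ ∈ Lev G U b 0, Br G U b p (n + m) E₀ := by
  intro n
  induction n with
  | zero =>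
    intro m E hE h
    exact ⟨E, hE, by simpa using h⟩
  | succ n ih =>
    rintro m E ⟨E₁, hE₁, hU, hE⟩ h
    obtain ⟨E₀, hE₀, h0⟩ := ih (m + 1) E₁ hE₁ ⟨sUnion_child hE (br_mem _ _ h), hU, E, hE, h⟩
    exact ⟨E₀, hE₀, by rwa [show n + 1 + m = n + (m + 1) by ring]⟩

lemma lev_empty (hG : HasSubinfiniteRank G)
    (hb : ∀ E, Node G U E → ¬ Bd U E → b E ∈ ⋃₀ E) (p : X) :
    ∃ N, ∀ n, N ≤ n → ∀ E ∈ Lev G U b n, p ∉ ⋃₀ E := by
  obtain ⟨N, hN⟩ := finite_bound (G := G) (U := U) (b := b)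
    (comp_finite hG (F := {A ∈ G | ∃ B ∈ U, A ⊆ B}) (fun A hA => hA.1) p)
    (fun E hE => not_forall_br hG hb (node_lev (b := b) 0 E hE))
  refine ⟨N, fun n hn E hE hp => ?_⟩
  obtain ⟨E₀, hE₀, h0⟩ := br_of_lev n 0 E hE hp
  exact hN E₀ hE₀ (br_anti' (by simpa using hn) E₀ h0)

lemma lev_finite (hG : HasSubinfiniteRank G) (p : X) (n : ℕ) :
    {E ∈ Lev G U b n | p ∈ ⋃₀ E}.Finite := by
  induction n with
  | zero => exact comp_finite hG (F := {A ∈ G | ∃ B ∈ U, A ⊆ B}) (fun A hA => hA.1) p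
  | succ n ih =>
    refine (ih.biUnion fun E _ => comp_finite hG (F := Fam G b E) (fun A hA => hA.1) p).subset ?_
    rintro E' ⟨⟨E, hE, _, hE'⟩, hp⟩
    simp only [mem_iUnion, exists_prop]
    exact ⟨E, ⟨hE, sUnion_child hE' hp⟩, hE', hp⟩

lemma all_finite (hG : HasSubinfiniteRank G)
    (hb : ∀ E, Node G U E → ¬ Bd U E → b E ∈ ⋃₀ E) (p : X) :
    {E | (∃ n, E ∈ Lev G U b n) ∧ p ∈ ⋃₀ E}.Finite := by
  obtain ⟨N, hN⟩ := lev_empty hG hb p
  refine ((Set.finite_lt_nat N).biUnion fun n _ => lev_finite (U := U) (b := b) hG p n).subset ?_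
  rintro E ⟨⟨n, hE⟩, hp⟩
  simp only [mem_iUnion, exists_prop]
  refine ⟨n, ?_, hE, hp⟩
  by_contra hcon
  exact hN n (not_lt.mp hcon) E hE hp

end Combinatorics

theorem metacompact_of_base {X : Type u} [TopologicalSpace X] [T1Space X] (G : Set (Set X))
    (hbase : IsTopologicalBasis G) (hG : HasSubinfiniteRank G) : IsMetacompact X := by
  intro U hUo hUc
  rcases isEmpty_or_nonempty X with hX | hX
  · exact ⟨∅, by simp, by ext x; exact hX.elim x, by simp, fun x => hX.elim x⟩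
  classical
  let b : Set (Set X) → X := fun E => if h : (⋃₀ E).Nonempty then h.some else Classical.arbitrary X
  have hb : ∀ E, Node G U E → ¬ Bd U E → b E ∈ ⋃₀ E := by
    intro E hE hU
    have hne : (⋃₀ E).Nonempty := by
      rw [nonempty_iff_ne_empty]
      intro hemp
      obtain ⟨A, hA⟩ := hE.ne
      obtain ⟨B, hB, _⟩ := hE.ref A hA
      exact hU ⟨B, hB, by rw [hemp]; exact empty_subset _⟩
    simp only [b, dif_pos hne]
    exact hne.some_mem
  have hW : ∀ E, Node G U E → ∃ W : Set X, W ⊆ ⋃₀ E ∧ IsOpen W ∧ (∃ B ∈ U, W ⊆ B) ∧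
      (Bd U E → W = ⋃₀ E) ∧ (¬ Bd U E → b E ∈ W) := by
    intro E hE
    by_cases hU : Bd U E
    · refine ⟨⋃₀ E, subset_rfl, isOpen_sUnion fun A hA => hbase.isOpen (hE.sub hA), hU,
        fun _ => rfl, fun h => absurd hU h⟩
    · obtain ⟨A, hA, hbA⟩ := hb E hE hU
      exact ⟨A, subset_sUnion_of_mem hA, hbase.isOpen (hE.sub hA), hE.ref A hA,
        fun h => absurd h hU, fun _ => hbA⟩
  choose! W hW1 hW2 hW3 hW4 hW5 using hW
  refine ⟨{V | ∃ n, ∃ E ∈ Lev G U b n, V = W E}, ?_, ?_, ?_, ?_⟩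
  · rintro _ ⟨n, E, hE, rfl⟩
    exact hW2 E (node_lev n E hE)
  · rw [eq_univ_iff_forall]
    intro x
    by_contra hcon
    have hx : ∀ n, ∀ E ∈ Lev G U b n, x ∉ W E := fun n E hE hxE => hcon ⟨W E, ⟨n, E, hE, rfl⟩, hxE⟩
    -- then every level has an ideal around `x`
    have hlev : ∀ n, ∃ E ∈ Lev G U b n, x ∈ ⋃₀ E := by
      intro n
      induction n with
      | zero =>
        obtain ⟨B, hB, hxB⟩ : x ∈ ⋃₀ U := by rw [hUc]; trivial
        obtain ⟨A, hA, hxA, hAB⟩ := hbase.exists_subset_of_mem_open hxB (hUo B hB)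
        have hAF : A ∈ {A ∈ G | ∃ B ∈ U, A ⊆ B} := ⟨hA, B, hB, hAB⟩
        obtain ⟨g, hg, hAg⟩ := exists_good hG (F := {A ∈ G | ∃ B ∈ U, A ⊆ B})
          (fun A hA => hA.1) hAF hxA
        exact ⟨_, ⟨g, hg, rfl⟩, A, ⟨hAF, g, hg.1, hAg, subset_rfl⟩, hxA⟩
      | succ n ih =>
        obtain ⟨E, hE, hxE⟩ := ih
        have hN := node_lev n E hE
        have hU : ¬ Bd U E := by
          intro hU
          exact hx n E hE (by rw [hW4 E hN hU]; exact hxE)
        have hxb : x ≠ b E := by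
          intro hxb
          exact hx n E hE (by rw [hxb]; exact hW5 E hN hU)
        obtain ⟨A', hA', hxA'⟩ := hxE
        have hopen : IsOpen (A' \ {b E}) :=
          (hbase.isOpen (hN.sub hA')).sdiff isClosed_singleton
        obtain ⟨A, hA, hxA, hAB⟩ := hbase.exists_subset_of_mem_open
          (⟨hxA', hxb⟩ : x ∈ A' \ {b E}) hopen
        have hAF : A ∈ Fam G b E :=
          ⟨hA, fun h => (hAB h).2 rfl, A', hA', fun y hy => (hAB hy).1⟩
        obtain ⟨g, hg, hAg⟩ := exists_good hG (F := Fam G b E) (fun A hA => hA.1) hAF hxA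
        exact ⟨_, ⟨E, hE, hU, g, hg, rfl⟩, A, ⟨hAF, g, hg.1, hAg, subset_rfl⟩, hxA⟩
    obtain ⟨N, hN⟩ := lev_empty hG hb x
    obtain ⟨E, hE, hxE⟩ := hlev N
    exact hN N le_rfl E hE hxE
  · rintro _ ⟨n, E, hE, rfl⟩
    exact hW3 E (node_lev n E hE)
  · intro x
    refine ((all_finite (U := U) (b := b) hG hb x).image W).subset ?_
    rintro _ ⟨⟨n, E, hE, rfl⟩, hxW⟩
    exact ⟨E, ⟨⟨n, hE⟩, hW1 E (node_lev n E hE) hxW⟩, rfl⟩

lemma rank_subtype {X : Type u} {G : Set (Set X)} (hG : HasSubinfiniteRank G) (Y : Set X) :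
    HasSubinfiniteRank (preimage ((↑) : Y → X) '' G) := by
  intro D hD hanti hne
  have key : ∀ d ∈ D, ∃ A ∈ G, ((↑) : Y → X) ⁻¹' A = d := fun d hd => hD hd
  choose! r hr1 hr2 using key
  obtain ⟨y, hy⟩ := hne
  have hfin : (r '' D).Finite := by
    apply hG (r '' D)
    · rintro _ ⟨d, hd, rfl⟩
      exact hr1 d hd
    · rintro _ ⟨d, hd, rfl⟩ _ ⟨d', hd', rfl⟩ hne hsub
      refine hanti d hd d' hd' (fun h => hne (by rw [h])) ?_
      rw [← hr2 d hd, ← hr2 d' hd']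
      exact preimage_mono hsub
    · refine ⟨y, ?_⟩
      rintro _ ⟨d, hd, rfl⟩
      have := hy d hd
      rw [← hr2 d hd] at this
      exact this
  refine (hfin.image (preimage ((↑) : Y → X))).subset ?_
  intro d hd
  exact ⟨r d, ⟨d, hd, rfl⟩, hr2 d hd⟩

/-- the topology on `ℕ` whose open sets are the initial segments -/
abbrev initTop : TopologicalSpace ℕ where
  IsOpen s := IsLowerSet s
  isOpen_univ := isLowerSet_univ
  isOpen_inter _ _ hs ht := hs.inter ht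
  isOpen_sUnion _ h := isLowerSet_sUnion h

/-- **Main result.**  (1) Every `T1` space with a base of subinfinite rank is metacompact, and so
are all its subspaces.  (2) Without `T1` this fails, even for a countable `T0` space with a base
which is linearly ordered by inclusion. -/
theorem result :
    (∀ (X : Type u) [TopologicalSpace X] [T1Space X] (G : Set (Set X)),
      IsTopologicalBasis G → HasSubinfiniteRank G →
        IsMetacompact X ∧ ∀ Y : Set X, IsMetacompact Y) ∧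
    (∃ (_ : TopologicalSpace ℕ) (G : Set (Set ℕ)), T0Space ℕ ∧ IsTopologicalBasis G ∧
      (∀ A ∈ G, ∀ B ∈ G, A ⊆ B ∨ B ⊆ A) ∧ HasSubinfiniteRank G ∧ ¬ IsMetacompact ℕ) := by
  constructor
  · intro X _ _ G hbase hG
    refine ⟨metacompact_of_base G hbase hG, fun Y => ?_⟩
    exact metacompact_of_base _ (isTopologicalBasis_subtype hbase (· ∈ Y)) (rank_subtype hG Y)
  · let _ := initTop
    have hopen : ∀ s : Set ℕ, IsOpen s ↔ IsLowerSet s := fun s => Iff.rfl
    have hchain : ∀ A ∈ range (Iic : ℕ → Set ℕ), ∀ B ∈ range (Iic : ℕ → Set ℕ),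
        A ⊆ B ∨ B ⊆ A := by
      rintro _ ⟨m, rfl⟩ _ ⟨n, rfl⟩
      rcases le_total m n with h | h
      · exact Or.inl (Iic_subset_Iic.mpr h)
      · exact Or.inr (Iic_subset_Iic.mpr h)
    refine ⟨initTop, range (Iic : ℕ → Set ℕ), ?_, ?_, hchain, ?_, ?_⟩
    · refine ⟨fun x y hxy => ?_⟩
      have h1 : x ∈ Iic y := (hxy.mem_open_iff ((hopen _).mpr (isLowerSet_Iic y))).mpr (mem_Iic.mpr le_rfl)
      have h2 : y ∈ Iic x := (hxy.mem_open_iff ((hopen _).mpr (isLowerSet_Iic x))).mp (mem_Iic.mpr le_rfl)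
      exact le_antisymm h1 h2
    · refine isTopologicalBasis_of_isOpen_of_nhds ?_ ?_
      · rintro _ ⟨n, rfl⟩
        exact (hopen _).mpr (isLowerSet_Iic n)
      · intro a s ha hs
        refine ⟨Iic a, ⟨a, rfl⟩, mem_Iic.mpr le_rfl, fun x hx => (hopen _).mp hs hx ha⟩
    · intro D hD hanti _
      refine Set.Subsingleton.finite ?_
      intro A hA B hB
      by_contra hne
      rcases hchain A (hD hA) B (hD hB) with h | h
      · exact hanti A hA B hB hne h
      · exact hanti B hB A hA (Ne.symm hne) h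
    · intro hmc
      obtain ⟨V, hVo, hVc, hVr, hVf⟩ := hmc (range (Iic : ℕ → Set ℕ))
        (by rintro _ ⟨n, rfl⟩; exact (hopen _).mpr (isLowerSet_Iic n))
        (by rw [eq_univ_iff_forall]; exact fun n => ⟨Iic n, ⟨n, rfl⟩, mem_Iic.mpr le_rfl⟩)
      have hfin := hVf 0
      have hbd : ∀ A ∈ V, ∃ n, A ⊆ Iic n := by
        intro A hA
        obtain ⟨_, ⟨n, rfl⟩, h⟩ := hVr A hA
        exact ⟨n, h⟩
      choose! r hr using hbd
      obtain ⟨N, hN⟩ := (hfin.image r).bddAbove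
      have hx : N + 1 ∈ ⋃₀ V := by rw [hVc]; trivial
      obtain ⟨A, hA, hNA⟩ := hx
      have h0 : (0 : ℕ) ∈ A := (hopen _).mp (hVo A hA) (Nat.zero_le _) hNA
      have h1 : r A ≤ N := hN ⟨A, ⟨hA, h0⟩, rfl⟩
      have h2 : N + 1 ≤ r A := hr A hA hNA
      omega

end Pool.Agent.Results.MP_03f7b8_gt.SubinfiniteRank
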